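import Pool.Agent.H24.PN.Stmts

/-! Tools on the standard Gaussian random walk. -/

namespace PN.W45
open MeasureTheory ProbabilityTheory PN

/-- choosing some of the coordinates -/
theorem mp_comp {κ κ' : Type} [Fintype κ] [Fintype κ'] (e : κ' → κ) (he : Function.Injective e) :
    MeasurePreserving (fun (g : κ → ℝ) (i : κ') => g (e i)) (Ga κ) (Ga κ') := by
  have hm : Measurable (fun (g : κ → ℝ) (i : κ') => g (e i)) := by fun_prop
  refine ⟨hm, ?_⟩
  have h1 : iIndepFun (fun (i : κ) (g : κ → ℝ) => g i) (Ga κ) := by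
    unfold Ga
    exact iIndepFun_pi (X := fun _ x => x) (fun _ => aemeasurable_id)
  have h2 : iIndepFun (fun (i : κ') (g : κ → ℝ) => g (e i)) (Ga κ) := h1.precomp he
  rw [iIndepFun_iff_map_fun_eq_pi_map (fun i => (measurable_pi_apply (e i)).aemeasurable)] at h2
  rw [h2]
  unfold Ga
  congr
  ext i : 1
  exact (measurePreserving_eval _ (e i)).map_eq

theorem map_sum (n : ℕ) : (Ga (Fin n)).map (fun g => ∑ i, g i) = gaussianReal 0 n := by
  have hm : Measurable (fun g : Fin n → ℝ => ∑ i, g i) := by fun_prop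
  have : IsProbabilityMeasure ((Ga (Fin n)).map (fun g => ∑ i, g i)) :=
    Measure.isProbabilityMeasure_map hm.aemeasurable
  apply Measure.ext_of_charFun
  unfold Ga
  rw [charFun_map_sum_pi_eq_prod]
  ext t
  rw [Finset.prod_apply, charFun_gaussianReal]
  simp only [charFun_gaussianReal, Finset.prod_const, Finset.card_univ, Fintype.card_fin]
  rw [← Complex.exp_nat_mul]
  congr 1
  push_cast
  simp
  ring

theorem ps_eq {n : ℕ} (g : Fin n → ℝ) {j : ℕ} (hj : n ≤ j) : ps g j = ∑ i, g i := by
  unfold ps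
  refine Finset.sum_congr rfl fun i _ => ?_
  rw [if_pos (lt_of_lt_of_le i.2 hj)]

theorem measurable_ps {n : ℕ} (j : ℕ) : Measurable (fun g : Fin n → ℝ => ps g j) := by
  unfold ps
  refine Finset.measurable_sum _ fun i _ => ?_
  split_ifs
  · exact measurable_pi_apply i
  · exact measurable_const

theorem ps_mono {n : ℕ} (j : ℕ) {g g' : Fin n → ℝ} (h : g ≤ g') : ps g j ≤ ps g' j := by
  unfold ps
  refine Finset.sum_le_sum fun i _ => ?_
  split_ifs
  · exact h i
  · exact le_rfl

/-- restriction of the walk to the first steps -/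
theorem ps_castLE {n m : ℕ} (h : m ≤ n) (g : Fin n → ℝ) {j : ℕ} (hj : j ≤ m) :
    ps (fun i : Fin m => g (Fin.castLE h i)) j = ps g j := by
  unfold ps
  rw [← Finset.sum_subset (Finset.subset_univ (Finset.univ.map (Fin.castLEEmb h)))]
  · rw [Finset.sum_map]
    rfl
  · intro i _ hi
    rw [if_neg]
    intro hij
    apply hi
    rw [Finset.mem_map]
    exact ⟨⟨i, lt_of_lt_of_le hij hj⟩, Finset.mem_univ _, by ext; rfl⟩

theorem measurableSet_St (n m : ℕ) (x : ℝ) (b : ℕ → ℝ) : MeasurableSet (St n m x b) := by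
  have : St n m x b = ⋂ j : ℕ, {g : Fin n → ℝ | 1 ≤ j → j ≤ m → ps g j ≤ x + b j} := by
    ext g
    simp [St]
  rw [this]
  refine MeasurableSet.iInter fun j => ?_
  by_cases h1 : 1 ≤ j
  · by_cases h2 : j ≤ m
    · simp only [h1, h2, true_implies]
      exact measurableSet_le (measurable_ps j) measurable_const
    · simp [h2]
  · simp [h1]

theorem real_St {n m : ℕ} (h : m ≤ n) (x : ℝ) (b : ℕ → ℝ) :
    (Ga (Fin n)).real (St n m x b) = (Ga (Fin m)).real (St m m x b) := by
  have hp := mp_comp (Fin.castLE h) (Fin.castLE_injective h)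
  rw [← hp.measureReal_preimage (measurableSet_St m m x b).nullMeasurableSet]
  congr 1
  ext g
  simp only [St, Set.mem_ofPred_eq, Set.mem_preimage]
  constructor
  · intro hg j h1 h2
    rw [ps_castLE h g h2]
    exact hg j h1 h2
  · intro hg j h1 h2
    rw [← ps_castLE h g h2]
    exact hg j h1 h2

end PN.W45
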